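import Pool.Agent.NH10.SM.Main

/-! # Lower bounds for weighted means from lower bounds on windows -/

set_option autoImplicit false
set_option maxHeartbeats 4000000

open MeasureTheory Set Filter Topology

namespace Pool.Agent.NH10.RB

open Pool.Agent.Y749.Rig Pool.Agent.NH10.SM

section

variable {l : Filter ℝ} {G : ℝ → ℝ → ℝ} {H f : ℝ → ℝ} {a b : ℝ}

lemma low_weight (hGc : ∀ T, Continuous (G T)) (hG0 : ∀ᶠ T in l, ∀ α, 0 ≤ G T α)
    (hHc : Continuous H) (hH0 : ∀ α, 0 ≤ H α) (hab : a < b)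
    (hlow : ∀ a' b' : ℝ, a ≤ a' → a' < b' → b' ≤ b → ∀ ε : ℝ, 0 < ε → ∀ᶠ T in l,
      (∫ α in a'..b', H α) - ε ≤ ∫ α in a'..b', G T α)
    (hf : Continuous f) (hf0 : ∀ x ∈ Icc a b, 0 ≤ f x) {ε : ℝ} (hε : 0 < ε) :
    ∀ᶠ T in l, (∫ α in a..b, f α * H α) - ε ≤ ∫ α in a..b, f α * G T α := by
  obtain ⟨J, hJ⟩ : ∃ J : ℝ, J = ∫ α in a..b, H α := ⟨_, rfl⟩
  have hJ0 : 0 ≤ J := by
    rw [hJ]
    exact intervalIntegral.integral_nonneg hab.le fun x _ => hH0 x
  obtain ⟨ω, hω⟩ : ∃ ω : ℝ, ω = ε / (4 * (J + 1)) := ⟨_, rfl⟩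
  have hω0 : 0 < ω := by rw [hω]; positivity
  have huc := (isCompact_Icc (a := a) (b := b)).uniformContinuousOn_of_continuous hf.continuousOn
  rw [Metric.uniformContinuousOn_iff] at huc
  obtain ⟨δ, hδ, hδf⟩ := huc ω hω0
  obtain ⟨M, hM⟩ := (isCompact_Icc (a := a) (b := b)).exists_bound_of_continuousOn hf.continuousOn
  have hM0 : 0 ≤ M := (norm_nonneg _).trans (hM a ⟨le_rfl, hab.le⟩)
  obtain ⟨n, hn⟩ := exists_nat_gt ((b - a) / δ)
  have hn0 : (0 : ℝ) < n := lt_of_le_of_lt (div_nonneg (by linarith) hδ.le) hn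
  have hstep : (b - a) / n < δ := by
    rw [div_lt_iff₀ hδ] at hn
    rw [div_lt_iff₀ hn0]
    linarith
  have hs0 : 0 < (b - a) / n := div_pos (by linarith) hn0
  obtain ⟨x, hx⟩ : ∃ x : ℕ → ℝ, ∀ k, x k = a + k * ((b - a) / n) := ⟨_, fun k => rfl⟩
  have hx0 : x 0 = a := by rw [hx]; simp
  have hxn : x n = b := by rw [hx]; field_simp; ring
  have hxs : ∀ k, x (k + 1) = x k + (b - a) / n := by
    intro k
    rw [hx, hx]
    push_cast; ring
  have hxa : ∀ k, a ≤ x k := by
    intro k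
    rw [hx]
    have : (0 : ℝ) ≤ k * ((b - a) / n) := by positivity
    linarith
  have hxb : ∀ k, k ≤ n → x k ≤ b := by
    intro k hk
    rw [← hxn, hx, hx]
    have : (k : ℝ) ≤ n := by exact_mod_cast hk
    have := mul_le_mul_of_nonneg_right this hs0.le
    linarith
  obtain ⟨e, he⟩ : ∃ e : ℝ, e = ε / (4 * n * (M + ω + 1)) := ⟨_, rfl⟩
  have he0 : 0 < e := by rw [he]; positivity
  have hev : ∀ᶠ T in l, ∀ k ∈ Finset.range n, (∫ α in (x k)..(x (k + 1)), H α) - e ≤
      ∫ α in (x k)..(x (k + 1)), G T α := by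
    rw [Filter.eventually_all_finset]
    intro k hk
    rw [Finset.mem_range] at hk
    exact hlow (x k) (x (k + 1)) (hxa k) (by rw [hxs]; linarith) (hxb (k + 1) hk) e he0
  filter_upwards [hev, hG0] with T hT hT0
  have hci : ∀ {g : ℝ → ℝ}, Continuous g → ∀ p q : ℝ, IntervalIntegrable g volume p q :=
    fun hg p q => hg.intervalIntegrable p q
  have c1 : Continuous fun α => f α * G T α := hf.mul (hGc T)
  have c2 : Continuous fun α => f α * H α := hf.mul hHc
  have c3 : Continuous fun α => 2 * ω * H α := continuous_const.mul hHc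
  have c4 : Continuous fun α => f α * H α - 2 * ω * H α := c2.sub c3
  have s1 : ∑ k ∈ Finset.range n, ∫ α in (x k)..(x (k + 1)), f α * G T α =
      ∫ α in a..b, f α * G T α := by
    rw [intervalIntegral.sum_integral_adjacent_intervals fun k _ => hci c1 _ _, hx0, hxn]
  have s2 : ∑ k ∈ Finset.range n, ∫ α in (x k)..(x (k + 1)), (f α * H α - 2 * ω * H α) =
      ∫ α in a..b, (f α * H α - 2 * ω * H α) := by
    rw [intervalIntegral.sum_integral_adjacent_intervals fun k _ =>
      hci c4 _ _, hx0, hxn]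
  have s3 : ∫ α in a..b, (f α * H α - 2 * ω * H α) = (∫ α in a..b, f α * H α) - 2 * ω * J := by
    rw [intervalIntegral.integral_sub (hci c2 _ _) (hci c3 _ _),
      intervalIntegral.integral_const_mul, hJ]
  have key : ∀ k ∈ Finset.range n,
      (∫ α in (x k)..(x (k + 1)), (f α * H α - 2 * ω * H α)) ≤
      (∫ α in (x k)..(x (k + 1)), f α * G T α) + (M + ω) * e := by
    intro k hk
    have hk' := Finset.mem_range.1 hk
    have hle : x k ≤ x (k + 1) := by rw [hxs]; linarith
    have hmem : x k ∈ Icc a b := ⟨hxa k, hxb k hk'.le⟩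
    have hfk := hM (x k) hmem
    rw [Real.norm_eq_abs] at hfk
    have hfk1 := (le_abs_self _).trans hfk
    have hdist : ∀ y ∈ Icc (x k) (x (k + 1)), |f y - f (x k)| < ω := by
      intro y hy
      have hy' : y ∈ Icc a b := ⟨(hxa k).trans hy.1, hy.2.trans (hxb (k + 1) hk')⟩
      have := hδf y hy' (x k) hmem (by
        rw [Real.dist_eq, abs_of_nonneg (by linarith [hy.1])]
        have := hy.2
        rw [hxs] at this
        linarith)
      rwa [Real.dist_eq] at this
    obtain ⟨m, hm⟩ : ∃ m : ℝ, m = max 0 (f (x k) - ω) := ⟨_, rfl⟩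
    have hm0 : 0 ≤ m := by rw [hm]; exact le_max_left _ _
    have hm1 : f (x k) - ω ≤ m := by rw [hm]; exact le_max_right _ _
    have hm2 : m ≤ M := by
      rw [hm]
      exact max_le hM0 (by linarith)
    calc (∫ α in (x k)..(x (k + 1)), (f α * H α - 2 * ω * H α)) ≤
          ∫ α in (x k)..(x (k + 1)), m * H α := by
          refine intervalIntegral.integral_mono_on hle (hci c4 _ _)
            (hci (continuous_const.mul hHc) _ _) fun y hy => ?_
          have h1 := (abs_lt.1 (hdist y hy)).2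
          have h2 := hH0 y
          have h3 : (f y - 2 * ω) * H y ≤ m * H y :=
            mul_le_mul_of_nonneg_right (by linarith) h2
          linarith
      _ = m * ∫ α in (x k)..(x (k + 1)), H α := intervalIntegral.integral_const_mul _ _
      _ ≤ m * ((∫ α in (x k)..(x (k + 1)), G T α) + e) :=
          mul_le_mul_of_nonneg_left (by linarith [hT k hk]) hm0
      _ = (∫ α in (x k)..(x (k + 1)), m * G T α) + m * e := by
          rw [intervalIntegral.integral_const_mul]
          ring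
      _ ≤ _ := by
          refine add_le_add ?_ ?_
          · refine intervalIntegral.integral_mono_on hle (hci (continuous_const.mul (hGc T)) _ _)
              (hci c1 _ _) fun y hy => ?_
            have h1 := (abs_lt.1 (hdist y hy)).1
            have hy' : y ∈ Icc a b := ⟨(hxa k).trans hy.1, hy.2.trans (hxb (k + 1) hk')⟩
            refine mul_le_mul_of_nonneg_right ?_ (hT0 y)
            rw [hm]
            exact max_le (hf0 y hy') (by linarith)
          · exact mul_le_mul_of_nonneg_right (by linarith) he0.le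
  have h1 := Finset.sum_le_sum key
  rw [Finset.sum_add_distrib, s1, s2, s3, Finset.sum_const, Finset.card_range, nsmul_eq_mul] at h1
  have h2 : (n : ℝ) * ((M + ω) * e) ≤ ε / 4 := by
    rw [he]
    have : (n : ℝ) * ((M + ω) * (ε / (4 * n * (M + ω + 1)))) = (M + ω) / (M + ω + 1) * (ε / 4) := by
      field_simp
    rw [this]
    have h3 : (M + ω) / (M + ω + 1) ≤ 1 := by
      rw [div_le_one (by positivity)]
      linarith
    calc _ ≤ 1 * (ε / 4) := by gcongr
      _ = _ := one_mul _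
  have h3 : 2 * ω * J ≤ ε / 2 := by
    rw [hω]
    have : 2 * (ε / (4 * (J + 1))) * J = J / (J + 1) * (ε / 2) := by
      field_simp
      ring
    rw [this]
    have h3 : J / (J + 1) ≤ 1 := by
      rw [div_le_one (by positivity)]
      linarith
    calc _ ≤ 1 * (ε / 2) := by gcongr
      _ = _ := one_mul _
  linarith

end

/-- windows below one -/
lemma win_below (RH : RiemannHypothesis) {a b : ℝ} (ha : 0 < a) (hab : a < b) (hb : b < 1)
    {ε : ℝ} (hε : 0 < ε) : ∀ᶠ T in atTop, (∫ α in a..b, mn α) - ε ≤ ∫ α in a..b, Fr T α := by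
  obtain ⟨δ, hδ⟩ : ∃ δ : ℝ, δ = min (b / 2) (min ((1 - a) / 2) (ε / 8)) := ⟨_, rfl⟩
  have hδ0 : 0 < δ := by
    rw [hδ]
    exact lt_min (by linarith) (lt_min (by linarith) (by positivity))
  have hδ1 : δ ≤ b / 2 := by rw [hδ]; exact min_le_left _ _
  have hδ2 : δ ≤ (1 - a) / 2 := by rw [hδ]; exact (min_le_right _ _).trans (min_le_left _ _)
  have hδ3 : δ ≤ ε / 8 := by rw [hδ]; exact (min_le_right _ _).trans (min_le_right _ _)
  have l1 := ((tn_mont RH (show 0 < b by linarith) hb).sub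
    (tn_mont RH (show 0 < b - δ by linarith) (show b - δ < 1 by linarith)))
  have l2 := ((tn_mont RH (show 0 < a + δ by linarith) (show a + δ < 1 by linarith)).sub
    (tn_mont RH ha (show a < 1 by linarith)))
  have e1 : b + b ^ 3 / 3 - (b - δ + (b - δ) ^ 3 / 3) =
      δ * (1 + (b ^ 2 + b * (b - δ) + (b - δ) ^ 2) / 3) := by ring
  have e2 : a + δ + (a + δ) ^ 3 / 3 - (a + a ^ 3 / 3) =
      δ * (1 + ((a + δ) ^ 2 + a * (a + δ) + a ^ 2) / 3) := by ring
  rw [e1] at l1
  rw [e2] at l2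
  have b1 : δ * (1 + (b - δ) ^ 2 - ε / 4) <
      δ * (1 + (b ^ 2 + b * (b - δ) + (b - δ) ^ 2) / 3) := by
    refine mul_lt_mul_of_pos_left ?_ hδ0
    nlinarith
  have b2 : δ * (1 + ((a + δ) ^ 2 + a * (a + δ) + a ^ 2) / 3) <
      δ * (1 + (a + δ) ^ 2 + ε / 4) := by
    refine mul_lt_mul_of_pos_left ?_ hδ0
    nlinarith
  filter_upwards [l1.eventually (lt_mem_nhds b1), l2.eventually (gt_mem_nhds b2),
    eventually_ge_atTop 10] with T h1 h2 hT
  have k1 := (tn_diff hT (show 0 ≤ b - δ by linarith) (show b - δ ≤ b by linarith)).2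
  have k2 := (tn_diff hT ha.le (show a ≤ a + δ by linarith)).1
  rw [show b - (b - δ) = δ by ring] at k1
  rw [show a + δ - a = δ by ring] at k2
  have m1 : 1 + (b - δ) ^ 2 - ε / 4 ≤ 2 * ∫ α in (0 : ℝ)..b, Fr T α := by
    refine le_of_mul_le_mul_left ?_ hδ0
    linarith
  have m2 : 2 * (∫ α in (0 : ℝ)..a, Fr T α) ≤ 1 + (a + δ) ^ 2 + ε / 4 := by
    refine le_of_mul_le_mul_left ?_ hδ0
    linarith
  rw [win_sub, mn_small ha.le hab.le hb.le]
  nlinarith

/-- all windows -/
lemma win_all (RH : RiemannHypothesis) {l : Filter ℝ} (hl : l ≤ atTop)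
    (h : ∀ a b : ℝ, 1 ≤ a → a < b → ∀ ε : ℝ, 0 < ε → ∀ᶠ T in l,
      (b - a) - ε ≤ ∫ α in a..b, Fr T α) {a b : ℝ} (ha : 0 < a) (hab : a < b) {ε : ℝ}
    (hε : 0 < ε) : ∀ᶠ T in l, (∫ α in a..b, mn α) - ε ≤ ∫ α in a..b, Fr T α := by
  have hone : ∀ {a b : ℝ}, 1 ≤ a → a ≤ b → ∫ α in a..b, mn α = b - a := by
    intro a b ha hab
    have : ∫ α in a..b, mn α = ∫ α in a..b, (1 : ℝ) := by
      refine intervalIntegral.integral_congr fun α hα => ?_
      rw [uIcc_of_le hab] at hα
      show mn α = 1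
      unfold mn
      rw [abs_of_nonneg (by linarith [hα.1]), min_eq_right (by linarith [hα.1])]
    rw [this]; simp
  rcases lt_or_ge b 1 with h1 | h1
  · exact hl (win_below RH ha hab h1 hε)
  rcases le_or_gt 1 a with h2 | h2
  · rw [hone h2 hab.le]
    exact h a b h2 hab ε hε
  -- straddling
  obtain ⟨δ, hδ⟩ : ∃ δ : ℝ, δ = min ((1 - a) / 2) (ε / 8) := ⟨_, rfl⟩
  have hδ0 : 0 < δ := by rw [hδ]; exact lt_min (by linarith) (by positivity)
  have hδ1 : δ ≤ (1 - a) / 2 := by rw [hδ]; exact min_le_left _ _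
  have hδ2 : δ ≤ ε / 8 := by rw [hδ]; exact min_le_right _ _
  have hm1 : ∫ α in (1 - δ)..1, mn α ≤ δ := by
    calc ∫ α in (1 - δ)..1, mn α ≤ ∫ α in (1 - δ)..1, (1 : ℝ) :=
          intervalIntegral.integral_mono_on (by linarith) (mn_cont.intervalIntegrable _ _)
            (by simp) fun α _ => mn_le α
      _ = δ := by simp
  have e0 : ∫ α in a..b, mn α = (∫ α in a..(1 - δ), mn α) + (∫ α in (1 - δ)..1, mn α) +
      ∫ α in (1 : ℝ)..b, mn α := by
    rw [mn_add, mn_add]
  have hwin : ∀ T : ℝ, ∫ α in a..b, Fr T α = (∫ α in a..(1 - δ), Fr T α) +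
      (∫ α in (1 - δ)..1, Fr T α) + ∫ α in (1 : ℝ)..b, Fr T α := by
    intro T
    have c := Fr_cont T
    rw [intervalIntegral.integral_add_adjacent_intervals (c.intervalIntegrable _ _)
      (c.intervalIntegrable _ _), intervalIntegral.integral_add_adjacent_intervals
      (c.intervalIntegrable _ _) (c.intervalIntegrable _ _)]
  have hb : ∀ᶠ T in l, (∫ α in (1 : ℝ)..b, mn α) - ε / 4 ≤ ∫ α in (1 : ℝ)..b, Fr T α := by
    rw [hone le_rfl h1]
    rcases eq_or_lt_of_le h1 with h3 | h3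
    · rw [← h3]
      refine Eventually.of_forall fun T => ?_
      simp only [sub_self, intervalIntegral.integral_same]
      linarith
    · exact h 1 b le_rfl h3 (ε / 4) (by linarith)
  filter_upwards [hl (win_below RH ha (show a < 1 - δ by linarith) (by linarith)
    (show 0 < ε / 4 by linarith)), hb, hl (eventually_ge_atTop 10)] with T t1 t2 hT
  have t3 : 0 ≤ ∫ α in (1 - δ)..1, Fr T α :=
    intervalIntegral.integral_nonneg (by linarith) fun α _ => Fr_nonneg hT α
  rw [hwin, e0]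
  linarith

end Pool.Agent.NH10.RB
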