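import Pool.Agent.NH10.RB.Low

/-! # Lower bounds for the windows and repulsion of the close pairs -/

set_option autoImplicit false
set_option maxHeartbeats 4000000

open MeasureTheory Set Filter Topology

namespace Pool.Agent.NH10.RB

open Pool.Agent.Y749.Rig Pool.Agent.NH10.SM

/-- the Fejér kernel -/
noncomputable def fk (β α : ℝ) : ℝ := β ^ 2 * fl (tr β) α

section

variable {β : ℝ}

lemma fk_cont (hβ : 0 < β) : Continuous (fk β) := continuous_const.mul (fl_cont (tr_int hβ))

lemma fk_nonneg (hβ : 0 < β) (α : ℝ) : 0 ≤ fk β α :=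
  mul_nonneg (sq_nonneg _) (fl_tr_nonneg hβ α)

lemma fl_tr_le_one (hβ : 0 < β) (α : ℝ) : fl (tr β) α ≤ 1 := by
  rw [← int_tr hβ]
  unfold fl
  refine integral_mono ?_ (tr_int hβ) fun x => ?_
  · refine (tr_int hβ).mul_bdd (c := 1) (by fun_prop) (ae_of_all _ fun x => ?_)
    rw [Real.norm_eq_abs]
    exact Real.abs_cos_le_one _
  · have h1 := tr_nonneg hβ x
    have h2 := Real.cos_le_one (2 * Real.pi * x * α)
    nlinarith

lemma fk_le (hβ : 0 < β) (α : ℝ) : fk β α ≤ β ^ 2 := by
  unfold fk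
  have := fl_tr_le_one hβ α
  nlinarith [sq_nonneg β]

lemma fk_even (β α : ℝ) : fk β (-α) = fk β α := by
  unfold fk
  rw [fl_even]

lemma fk_zero (hβ : 0 < β) : fk β 0 = β ^ 2 := by
  unfold fk
  rw [fl_tr_zero hβ, mul_one]

lemma fk_int (hβ : 0 < β) : Integrable (fk β) := (fl_int (adm_tr hβ)).const_mul _

lemma fk_total (hβ : 0 < β) : ∫ α, fk β α = β := by
  unfold fk
  rw [integral_const_mul]
  have h1 := inv_four (adm_tr hβ) 0
  have h2 : fl (fl (tr β)) 0 = ∫ α, fl (tr β) α := by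
    unfold fl
    simp
  rw [← h2, h1]
  unfold tr
  simp
  field_simp

/-- lower bound near the origin -/
lemma fk_low (hβ : 0 < β) {α : ℝ} (h0 : 0 ≤ α) (h1 : β * α ≤ 1 / 2) :
    β ^ 2 * (4 / Real.pi ^ 2) ≤ fk β α := by
  have hpi := Real.pi_pos
  rcases eq_or_lt_of_le h0 with h | h
  · rw [← h, fk_zero hβ]
    have : 4 / Real.pi ^ 2 ≤ 1 := by
      rw [div_le_one (by positivity)]
      nlinarith [Real.pi_gt_three]
    nlinarith [sq_nonneg β]
  · unfold fk
    rw [fl_tr hβ h.ne']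
    refine mul_le_mul_of_nonneg_left ?_ (sq_nonneg _)
    have hx : 0 < Real.pi * β * α := by positivity
    have h2 := Real.mul_le_sin hx.le (by nlinarith)
    have h3 : 2 / Real.pi ≤ Real.sin (Real.pi * β * α) / (Real.pi * β * α) := by
      rw [le_div_iff₀ hx]
      exact h2
    have h4 : (4 : ℝ) / Real.pi ^ 2 = (2 / Real.pi) ^ 2 := by ring
    rw [h4]
    exact pow_le_pow_left₀ (by positivity) h3 2

/-- the pairing with the form factor -/
lemma fk_pair (hβ : 0 < β) {T : ℝ} : ∫ α, fk β α * Fr T α ≤ β * (Mp T).real (Icc (-β) β) := by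
  have hf := Mp_fin T
  rw [Fr_pair (fk_int hβ)]
  have e1 : ∀ x : ℝ, fl (fk β) x = max 0 (β - |x|) := by
    intro x
    rw [← tent_eq hβ x]
    have : fl (fk β) x = β ^ 2 * fl (fl (tr β)) x := by
      unfold fk
      conv_lhs => unfold fl
      conv_rhs => unfold fl
      rw [← integral_const_mul]
      refine integral_congr_ae (ae_of_all _ fun α => ?_)
      simp only
      ring
    rw [this, inv_four (adm_tr hβ)]
  have e2 : β * (Mp T).real (Icc (-β) β) = ∫ x, (Icc (-β) β).indicator (fun _ => β) x ∂(Mp T) := by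
    rw [integral_indicator measurableSet_Icc, setIntegral_const, smul_eq_mul, mul_comm]
  rw [e2]
  refine integral_mono ?_ ((integrable_const β).indicator measurableSet_Icc) fun x => ?_
  · refine Integrable.mul_bdd (c := 1) ?_ ?_ (ae_of_all _ fun x => ?_)
    · refine Integrable.mono' (integrable_const β) ?_ (ae_of_all _ fun x => ?_)
      · exact (fl_cont (fk_int hβ)).aestronglyMeasurable
      · rw [e1, Real.norm_eq_abs, abs_of_nonneg (le_max_left _ _)]
        exact max_le hβ.le (by linarith [abs_nonneg x])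
    · have := ww_cont
      apply Continuous.aestronglyMeasurable
      fun_prop
    · rw [Real.norm_eq_abs, abs_of_pos (ww_pos _)]
      exact ww_le _
  · simp only
    rw [e1]
    have hw := ww_le (2 * Real.pi * x / Real.log T)
    have hw0 := (ww_pos (2 * Real.pi * x / Real.log T)).le
    by_cases hx : x ∈ Icc (-β) β
    · rw [indicator_of_mem hx]
      have h1 : max 0 (β - |x|) ≤ β := max_le hβ.le (by linarith [abs_nonneg x])
      calc _ ≤ β * 1 := mul_le_mul h1 hw hw0 hβ.le
        _ = β := mul_one β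
    · rw [indicator_of_notMem hx]
      have h1 : max 0 (β - |x|) = 0 := by
        apply max_eq_left
        by_contra hcon
        push Not at hcon
        have h2 : |x| < β := by linarith
        exact hx ⟨(abs_lt.1 h2).1.le, (abs_lt.1 h2).2.le⟩
      rw [h1, zero_mul]

end

lemma even_int {g : ℝ → ℝ} (hg : Continuous g) (he : ∀ x, g (-x) = g x) (R : ℝ) :
    ∫ α in (-R)..R, g α = 2 * ∫ α in (0 : ℝ)..R, g α := by
  rw [← intervalIntegral.integral_add_adjacent_intervals (b := 0) (hg.intervalIntegrable _ _)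
    (hg.intervalIntegrable _ _)]
  have : ∫ α in (-R)..0, g α = ∫ α in (0 : ℝ)..R, g α := by
    have h := intervalIntegral.integral_comp_neg (a := 0) (b := R) (f := g)
    rw [neg_zero] at h
    rw [← h]
    refine intervalIntegral.integral_congr fun x _ => ?_
    exact he x
  rw [this]
  ring

/-- the mass of the kernel against the model -/
lemma fk_model {β : ℝ} (hβ : 0 < β) {R y : ℝ} (hR : 1 ≤ R) (hy0 : 0 ≤ y) (hy : y ≤ 1) :
    (∫ α in (-R)..R, fk β α) - β ^ 2 - β ^ 2 * y ^ 2 ≤ 2 * ∫ α in y..R, fk β α * mn α := by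
  have hc := fk_cont hβ
  have hm := mn_cont
  have hci : ∀ {g : ℝ → ℝ}, Continuous g → ∀ p q : ℝ, IntervalIntegrable g volume p q :=
    fun hg p q => hg.intervalIntegrable p q
  have c1 : Continuous fun α => fk β α * mn α := hc.mul hm
  rw [even_int hc (fk_even β)]
  have s1 : (∫ α in (0 : ℝ)..y, fk β α * mn α) + ∫ α in y..R, fk β α * mn α =
      ∫ α in (0 : ℝ)..R, fk β α * mn α :=
    intervalIntegral.integral_add_adjacent_intervals (hci c1 _ _) (hci c1 _ _)
  have s2 : ∫ α in (0 : ℝ)..y, fk β α * mn α ≤ β ^ 2 * (y ^ 2 / 2) := by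
    have h1 := mn_small le_rfl hy0 hy
    have h2 : ∫ α in (0 : ℝ)..y, fk β α * mn α ≤ ∫ α in (0 : ℝ)..y, β ^ 2 * mn α :=
      intervalIntegral.integral_mono_on hy0 (hci c1 _ _) (hci (continuous_const.mul hm) _ _)
        fun α _ => mul_le_mul_of_nonneg_right (fk_le hβ α) (mn_nonneg α)
    rw [intervalIntegral.integral_const_mul, h1] at h2
    linarith
  have s3 : (∫ α in (0 : ℝ)..1, fk β α * mn α) + ∫ α in (1 : ℝ)..R, fk β α * mn α =
      ∫ α in (0 : ℝ)..R, fk β α * mn α :=
    intervalIntegral.integral_add_adjacent_intervals (hci c1 _ _) (hci c1 _ _)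
  have s4 : (∫ α in (0 : ℝ)..1, fk β α) + ∫ α in (1 : ℝ)..R, fk β α =
      ∫ α in (0 : ℝ)..R, fk β α :=
    intervalIntegral.integral_add_adjacent_intervals (hci hc _ _) (hci hc _ _)
  have s5 : ∫ α in (1 : ℝ)..R, fk β α * mn α = ∫ α in (1 : ℝ)..R, fk β α := by
    refine intervalIntegral.integral_congr fun α hα => ?_
    rw [uIcc_of_le hR] at hα
    show fk β α * mn α = fk β α
    unfold mn
    rw [abs_of_nonneg (by linarith [hα.1]), min_eq_right hα.1, mul_one]
  have s6 : (∫ α in (0 : ℝ)..1, fk β α) - β ^ 2 / 2 ≤ ∫ α in (0 : ℝ)..1, fk β α * mn α := by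
    have h1 : (∫ α in (0 : ℝ)..1, fk β α) - ∫ α in (0 : ℝ)..1, fk β α * mn α =
        ∫ α in (0 : ℝ)..1, fk β α * (1 - mn α) := by
      rw [← intervalIntegral.integral_sub (hci hc _ _) (hci c1 _ _)]
      refine intervalIntegral.integral_congr fun α _ => ?_
      ring
    have h2 : ∫ α in (0 : ℝ)..1, fk β α * (1 - mn α) ≤ ∫ α in (0 : ℝ)..1, β ^ 2 * (1 - mn α) :=
      intervalIntegral.integral_mono_on zero_le_one
        (hci (hc.mul (continuous_const.sub hm)) _ _)
        (hci (continuous_const.mul (continuous_const.sub hm)) _ _)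
        fun α _ => mul_le_mul_of_nonneg_right (fk_le hβ α) (by linarith [mn_le α])
    have h3 : ∫ α in (0 : ℝ)..1, β ^ 2 * (1 - mn α) = β ^ 2 / 2 := by
      rw [intervalIntegral.integral_const_mul, intervalIntegral.integral_sub (by simp)
        (hci hm _ _), mn_small le_rfl zero_le_one le_rfl]
      simp
      ring
    linarith
  linarith

/-- **the excess is small** -/
theorem excess (RH : RiemannHypothesis) {l : Filter ℝ} (hl : l ≤ atTop)
    (hlow : ∀ a b : ℝ, 1 ≤ a → a < b → ∀ ε : ℝ, 0 < ε → ∀ᶠ T in l,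
      (b - a) - ε ≤ ∫ α in a..b, Fr T α)
    (hrep : ∀ η : ℝ, 0 < η → ∀ β₀ : ℝ, 0 < β₀ → ∃ β : ℝ, 0 < β ∧ β < β₀ ∧ ∀ᶠ T in l,
      (Mp T).real (Icc (-β) β) ≤ 1 + η * β) {a b : ℝ} (ha : 0 < a) (hab : a < b) {ε : ℝ}
    (hε : 0 < ε) : ∀ᶠ T in l, ∫ α in a..b, Fr T α ≤ (∫ α in a..b, mn α) + ε := by
  have hpi := Real.pi_pos
  have hall := fun {a b : ℝ} (ha : 0 < a) (hab : a < b) {ε : ℝ} (hε : 0 < ε) =>
    win_all RH hl hlow ha hab hε
  have hG0 : ∀ᶠ T in l, ∀ α, 0 ≤ Fr T α :=
    hl ((eventually_ge_atTop 10).mono fun T hT α => Fr_nonneg hT α)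
  obtain ⟨η, hη⟩ : ∃ η : ℝ, η = min (1 / 2) (ε / 8) := ⟨_, rfl⟩
  have hη0 : 0 < η := by rw [hη]; exact lt_min (by norm_num) (by positivity)
  have hη1 : η ≤ 1 / 2 := by rw [hη]; exact min_le_left _ _
  have hη2 : η ≤ ε / 8 := by rw [hη]; exact min_le_right _ _
  have hb : 0 < b := by linarith
  obtain ⟨β, hβ, hβ0, hN⟩ := hrep η hη0 (1 / (2 * b)) (by positivity)
  have hβb : β * b ≤ 1 / 2 := by
    rw [lt_div_iff₀ (by positivity)] at hβ0
    linarith
  obtain ⟨κ, hκ⟩ : ∃ κ : ℝ, κ = β ^ 2 * (4 / Real.pi ^ 2) := ⟨_, rfl⟩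
  have hκ0 : 0 < κ := by rw [hκ]; positivity
  have hκb : β ^ 2 * (2 / 5) ≤ κ := by
    rw [hκ]
    refine mul_le_mul_of_nonneg_left ?_ (sq_nonneg _)
    rw [div_le_div_iff₀ (by norm_num) (by positivity)]
    have := Real.pi_lt_d2
    nlinarith
  -- the point y
  obtain ⟨y, hy0, hya, hy1, hyη, hyf⟩ : ∃ y : ℝ, 0 < y ∧ y < a ∧ y < 1 ∧ y ^ 2 ≤ η ∧
      ∀ α ∈ Icc (0 : ℝ) y, β ^ 2 * (1 - η) ≤ fk β α := by
    have h1 : ∀ᶠ α in 𝓝 (0 : ℝ), β ^ 2 * (1 - η) < fk β α := by
      refine (fk_cont hβ).continuousAt.eventually (lt_mem_nhds ?_)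
      rw [fk_zero hβ]
      nlinarith [mul_pos (sq_pos_of_pos hβ) hη0]
    obtain ⟨r, hr, hr2⟩ := Metric.eventually_nhds_iff.1 h1
    obtain ⟨y, hy⟩ : ∃ y : ℝ, y = min (r / 2) (min (a / 2) η) := ⟨_, rfl⟩
    have hy0 : 0 < y := by
      rw [hy]; exact lt_min (by positivity) (lt_min (by positivity) hη0)
    have hy1 : y ≤ r / 2 := by rw [hy]; exact min_le_left _ _
    have hy2 : y ≤ a / 2 := by rw [hy]; exact (min_le_right _ _).trans (min_le_left _ _)
    have hy3 : y ≤ η := by rw [hy]; exact (min_le_right _ _).trans (min_le_right _ _)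
    refine ⟨y, hy0, by linarith, by linarith, by nlinarith, fun α hα => (hr2 ?_).le⟩
    rw [Real.dist_eq, sub_zero, abs_of_nonneg hα.1]
    linarith [hα.2]
  -- the point R
  obtain ⟨R, hRb, hR1, hRt⟩ : ∃ R : ℝ, b < R ∧ 1 ≤ R ∧
      β - η * β ^ 2 ≤ ∫ α in (-R)..R, fk β α := by
    have h1 : Tendsto (fun R : ℝ => ∫ α in (-R)..R, fk β α) atTop (𝓝 β) := by
      have := intervalIntegral_tendsto_integral (fk_int hβ) tendsto_neg_atTop_atBot tendsto_id
      rw [fk_total hβ] at this
      exact this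
    obtain ⟨R, h2, h3, h4⟩ := ((h1.eventually (le_mem_nhds (show β - η * β ^ 2 < β by
      nlinarith [mul_pos hη0 (sq_pos_of_pos hβ)]))).and ((eventually_gt_atTop b).and
      (eventually_ge_atTop 1))).exists
    exact ⟨R, h3, h4, h2⟩
  have hc := fk_cont hβ
  obtain ⟨e, he⟩ : ∃ e : ℝ, e = η * β ^ 2 / 6 := ⟨_, rfl⟩
  have he0 : 0 < e := by rw [he]; positivity
  -- the three windows
  have w1 := low_weight (l := l) (G := fun T => Fr T) (f := fk β) (a := y) (b := a)
    (fun T => Fr_cont T) hG0 mn_cont mn_nonneg hya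
    (fun a' b' h1 h2 h3 ε hε => hall (lt_of_lt_of_le hy0 h1) h2 hε) hc
    (fun x _ => fk_nonneg hβ x) he0
  have w2 := low_weight (l := l) (G := fun T => Fr T) (f := fun α => fk β α - κ) (a := a) (b := b)
    (fun T => Fr_cont T) hG0 mn_cont mn_nonneg hab
    (fun a' b' h1 h2 h3 ε hε => hall (lt_of_lt_of_le ha h1) h2 hε) (hc.sub continuous_const)
    (fun x hx => by
      have := fk_low hβ (α := x) (by linarith [hx.1]) (by
        have := mul_le_mul_of_nonneg_left hx.2 hβ.le
        linarith)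
      rw [hκ]
      linarith) he0
  have w3 := low_weight (l := l) (G := fun T => Fr T) (f := fk β) (a := b) (b := R)
    (fun T => Fr_cont T) hG0 mn_cont mn_nonneg hRb
    (fun a' b' h1 h2 h3 ε hε => hall (lt_of_lt_of_le hb h1) h2 hε) hc
    (fun x _ => fk_nonneg hβ x) he0
  have w0 : ∀ᶠ T in l, (1 - η) * y ≤ Tn T y := by
    have h1 := (tn_mont RH hy0 hy1).mono_left hl
    refine h1.eventually (le_mem_nhds ?_)
    nlinarith [mul_pos hη0 hy0, pow_pos hy0 3]
  filter_upwards [w0, w1, w2, w3, hN, hl (eventually_ge_atTop 10)] with T h0 h1 h2 h3 h4 hT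
  have hFc := Fr_cont T
  have hF0 := Fr_nonneg hT
  have hci : ∀ {g : ℝ → ℝ}, Continuous g → ∀ p q : ℝ, IntervalIntegrable g volume p q :=
    fun hg p q => hg.intervalIntegrable p q
  have c1 : Continuous fun α => fk β α * Fr T α := hc.mul hFc
  have c2 : Continuous fun α => fk β α * mn α := hc.mul mn_cont
  have c3 : Continuous fun α => κ * Fr T α := continuous_const.mul hFc
  have c4 : Continuous fun α => κ * mn α := continuous_const.mul mn_cont
  -- the upper bound
  have u1 : 2 * ∫ α in (0 : ℝ)..R, fk β α * Fr T α ≤ β * (1 + η * β) := by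
    rw [← even_int c1 (fun x => by rw [fk_even, Fr_even])]
    have k1 : ∫ α in (-R)..R, fk β α * Fr T α ≤ ∫ α, fk β α * Fr T α := by
      rw [intervalIntegral.integral_of_le (by linarith)]
      refine setIntegral_le_integral ?_ (ae_of_all _ fun α => ?_)
      · refine (fk_int hβ).mul_bdd (c := (Mp T).real univ) hFc.aestronglyMeasurable
          (ae_of_all _ fun α => ?_)
        have hf := Mp_fin T
        unfold Fr
        refine (norm_integral_le_integral_norm _).trans ?_
        have : (Mp T).real univ = ∫ x, (1 : ℝ) ∂(Mp T) := by simp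
        rw [this]
        refine integral_mono ?_ (integrable_const _) fun x => ?_
        · refine Integrable.norm ?_
          refine (integrable_const (1 : ℝ)).mono' (gw_cont α).aestronglyMeasurable
            (ae_of_all _ fun x => ?_)
          rw [norm_mul, Real.norm_eq_abs, Real.norm_eq_abs, abs_of_pos (ww_pos _)]
          have := Real.abs_cos_le_one (2 * Real.pi * α * x)
          have := ww_le (2 * Real.pi * x / Real.log T)
          have := ww_pos (2 * Real.pi * x / Real.log T)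
          nlinarith [abs_nonneg (Real.cos (2 * Real.pi * α * x))]
        · simp only
          rw [norm_mul, Real.norm_eq_abs, Real.norm_eq_abs, abs_of_pos (ww_pos _)]
          have := Real.abs_cos_le_one (2 * Real.pi * α * x)
          have := ww_le (2 * Real.pi * x / Real.log T)
          have := ww_pos (2 * Real.pi * x / Real.log T)
          nlinarith [abs_nonneg (Real.cos (2 * Real.pi * α * x))]
      · exact mul_nonneg (fk_nonneg hβ α) (hF0 α)
    exact k1.trans ((fk_pair hβ).trans (mul_le_mul_of_nonneg_left h4 hβ.le))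
  -- the spike
  have u2 : β ^ 2 * (1 - η) * (1 - η) ≤ 2 * ∫ α in (0 : ℝ)..y, fk β α * Fr T α := by
    have k1 : ∫ α in (0 : ℝ)..y, β ^ 2 * (1 - η) * Fr T α ≤
        ∫ α in (0 : ℝ)..y, fk β α * Fr T α :=
      intervalIntegral.integral_mono_on hy0.le (hci (continuous_const.mul hFc) _ _)
        (hci c1 _ _) fun α hα => mul_le_mul_of_nonneg_right (hyf α hα) (hF0 α)
    rw [intervalIntegral.integral_const_mul] at k1
    have k2 := (tn_diff hT le_rfl hy0.le).2
    have k3 : Tn T 0 = 0 := by unfold Tn; simp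
    rw [k3, sub_zero, sub_zero] at k2
    have k4 : 1 - η ≤ 2 * ∫ α in (0 : ℝ)..y, Fr T α := by
      refine le_of_mul_le_mul_left ?_ hy0
      linarith
    have k5 : 0 ≤ β ^ 2 * (1 - η) := mul_nonneg (sq_nonneg _) (by linarith)
    have k6 := mul_le_mul_of_nonneg_left k4 k5
    linarith
  -- additivity
  have d1 : ∫ α in (0 : ℝ)..R, fk β α * Fr T α = (∫ α in (0 : ℝ)..y, fk β α * Fr T α) +
      (∫ α in y..a, fk β α * Fr T α) + (∫ α in a..b, fk β α * Fr T α) +
      ∫ α in b..R, fk β α * Fr T α := by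
    rw [intervalIntegral.integral_add_adjacent_intervals (hci c1 _ _) (hci c1 _ _),
      intervalIntegral.integral_add_adjacent_intervals (hci c1 _ _) (hci c1 _ _),
      intervalIntegral.integral_add_adjacent_intervals (hci c1 _ _) (hci c1 _ _)]
  have d2 : ∫ α in y..R, fk β α * mn α =
      (∫ α in y..a, fk β α * mn α) + (∫ α in a..b, fk β α * mn α) +
      ∫ α in b..R, fk β α * mn α := by
    rw [intervalIntegral.integral_add_adjacent_intervals (hci c2 _ _) (hci c2 _ _),
      intervalIntegral.integral_add_adjacent_intervals (hci c2 _ _) (hci c2 _ _)]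
  have d3 : ∫ α in a..b, (fk β α - κ) * Fr T α =
      (∫ α in a..b, fk β α * Fr T α) - κ * ∫ α in a..b, Fr T α := by
    rw [← intervalIntegral.integral_const_mul,
      ← intervalIntegral.integral_sub (hci c1 _ _) (hci c3 _ _)]
    refine intervalIntegral.integral_congr fun α _ => ?_
    ring
  have d4 : ∫ α in a..b, (fk β α - κ) * mn α =
      (∫ α in a..b, fk β α * mn α) - κ * ∫ α in a..b, mn α := by
    rw [← intervalIntegral.integral_const_mul,
      ← intervalIntegral.integral_sub (hci c2 _ _) (hci c4 _ _)]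
    refine intervalIntegral.integral_congr fun α _ => ?_
    ring
  have d5 := fk_model hβ hR1 hy0.le hy1.le
  rw [d3, d4] at h2
  have hfin : 2 * (κ * ((∫ α in a..b, Fr T α) - ∫ α in a..b, mn α)) ≤ 6 * (η * β ^ 2) := by
    have t1 : β ^ 2 * y ^ 2 ≤ β ^ 2 * η := mul_le_mul_of_nonneg_left hyη (sq_nonneg _)
    have t2 : β ^ 2 * (1 - 2 * η) ≤ β ^ 2 * (1 - η) * (1 - η) := by
      nlinarith [mul_nonneg (sq_nonneg β) (sq_nonneg η)]
    have t3 : 6 * e = η * β ^ 2 := by rw [he]; ring
    nlinarith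
  by_contra hcon
  push Not at hcon
  obtain ⟨E, hE⟩ : ∃ E : ℝ, E = (∫ α in a..b, Fr T α) - ∫ α in a..b, mn α := ⟨_, rfl⟩
  have hE1 : ε < E := by rw [hE]; linarith
  rw [← hE] at hfin
  have hE0 : 0 < E := by linarith
  have t1 : 2 * (β ^ 2 * (2 / 5) * E) ≤ 2 * (κ * E) :=
    mul_le_mul_of_nonneg_left (mul_le_mul_of_nonneg_right hκb hE0.le) (by norm_num)
  have t2 : β ^ 2 * (4 / 5 * E) ≤ β ^ 2 * (6 * η) := by linarith
  have t3 : 4 / 5 * E ≤ 6 * η := le_of_mul_le_mul_left t2 (sq_pos_of_pos hβ)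
  linarith

end Pool.Agent.NH10.RB
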